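import Mathlib
import Pool.Agent.H365R5.Fin

set_option autoImplicit false

open scoped Manifold ContDiff Topology
open Set Filter

namespace Pool.Agent.Results.MP_d03271_an.TrivialCentralizersNotOpen

open Pool.Agent.H365R3 Pool.Agent.H365R4 Pool.Agent.H365R5

section

variable {E : Type} [NormedAddCommGroup E] [NormedSpace ℝ E] {H : Type} [TopologicalSpace H]

/-- The space `𝒜¹(M)` of the `C¹` Anosov diffeomorphisms of `M`, with the topology induced from
`Diff¹(M)`. -/
abbrev Anosov1 (I : ModelWithCorners ℝ E H) (M : Type) [TopologicalSpace M] [ChartedSpace H M]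
    [IsManifold I 1 M] : Type :=
  {f : M ≃ₘ^1⟮I, I⟯ M // IsAnosov f}

/-- The elements of `𝒜¹(M)` with trivial centralizer in `Diff¹(M)`. -/
def TrivialOnes (I : ModelWithCorners ℝ E H) (M : Type) [TopologicalSpace M] [ChartedSpace H M]
    [IsManifold I 1 M] : Set (Anosov1 I M) :=
  {f | TrivialCentralizer f.1}

end

/-- There is a compact connected smooth surface `M` without boundary (namely the two-torus)
such that the set of the elements of `𝒜¹(M)` with trivial centralizer is not open in `𝒜¹(M)`:
some `C¹` Anosov diffeomorphism with trivial centralizer is the limit in the `C¹` topology of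
Anosov diffeomorphisms with nontrivial centralizer. -/
theorem result :
    ∃ (E : Type) (_ : NormedAddCommGroup E) (_ : NormedSpace ℝ E) (_ : FiniteDimensional ℝ E)
      (H : Type) (_ : TopologicalSpace H) (I : ModelWithCorners ℝ E H) (_ : I.Boundaryless)
      (M : Type) (_ : TopologicalSpace M) (_ : ChartedSpace H M) (_ : IsManifold I ∞ M)
      (_ : IsManifold I 1 M) (_ : CompactSpace M) (_ : T2Space M) (_ : ConnectedSpace M),
      Module.finrank ℝ E = 2 ∧ Nonempty (M ≃ₜ Circle × Circle) ∧
        ¬ IsOpen (TrivialOnes I M) := by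
  refine ⟨EE2, inferInstance, inferInstance, inferInstance,
    ModelProd (EuclideanSpace ℝ (Fin 1)) (EuclideanSpace ℝ (Fin 1)), inferInstance, I2,
    inferInstance, T2, inferInstance, inferInstance, inferInstance, inferInstance, inferInstance,
    inferInstance, inferInstance, by simp [EE2], ⟨Homeomorph.refl _⟩, ?_⟩
  intro hopen
  have h2 : Tendsto (fun n => (⟨fn n, fn_anosov n⟩ : Anosov1 I2 T2)) atTop
      (𝓝 (⟨ff, ff_anosov⟩ : Anosov1 I2 T2)) := by
    rw [tendsto_subtype_rng]
    exact fn_tendsto
  have h3 : TrivialOnes I2 T2 ∈ 𝓝 (⟨ff, ff_anosov⟩ : Anosov1 I2 T2) :=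
    hopen.mem_nhds ff_trivial
  obtain ⟨n, hn⟩ := (h2.eventually h3).exists
  exact fn_nontrivial n hn

end Pool.Agent.Results.MP_d03271_an.TrivialCentralizersNotOpen
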